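import Mathlib

set_option autoImplicit false

/-!
# The S-integral weak Hall conjecture is equivalent to the abc conjecture

For coprime positive `A`, `B` with the sum `c` let `x = A² + AB + B²`, `2 y = (A - B) (2 A + B) (A + 2 B)`
and `2 M = A B c`. Then `y² = x³ - 27 M²`, the number `-27 M²` is an integral `S`-unit for
`S = {3} ∪ {p : p ∣ A B c}`, the pair `(x, y)` is `S`-primitive and `x ≥ (c / 2)²`.
-/

namespace Pool.Agent.Results.MP_2155e3_nt.EquivalentToABC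

theorem fac_prod (T : Finset ℕ) (hT : ∀ p ∈ T, p.Prime) (q : ℕ) :
    (∏ p ∈ T, p).factorization q = if q ∈ T then 1 else 0 := by
  rw [Nat.factorization_prod (fun p hp => (hT p hp).ne_zero), Finsupp.finsetSum_apply]
  have h : ∀ p ∈ T, p.factorization q = if q = p then 1 else 0 := by
    intro p hp
    rw [(hT p hp).factorization, Finsupp.single_apply]
    simp only [eq_comm]
  rw [Finset.sum_congr rfl h, Finset.sum_ite_eq]

/-- the local comparison at all primes -/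
theorem key (S : Finset ℕ) (hS : ∀ p ∈ S, p.Prime) (X Y A D g u v w : ℕ) (hX : X ≠ 0)
    (hY : Y ≠ 0) (hA : A ≠ 0) (hD : D ≠ 0) (hAS : ∀ p : ℕ, p.Prime → p ∣ A → p ∈ S)
    (hprim : ∀ p ∈ S, ¬ (p ^ 6 ∣ X ^ 3 ∧ p ^ 6 ∣ Y ^ 2)) (hg : g ≠ 0) (hu : Y ^ 2 = g * u)
    (hv : X ^ 3 = g * v) (hw : A * D = g * w) (huv : u.Coprime v) :
    g * ∏ p ∈ (u * v * w).primeFactors, p ∣ X * Y * ((∏ p ∈ S, p) * D) := by
  have hu0 : u ≠ 0 := by
    rintro rfl
    exact pow_ne_zero 2 hY (by simpa using hu)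
  have hv0 : v ≠ 0 := by
    rintro rfl
    exact pow_ne_zero 3 hX (by simpa using hv)
  have hw0 : w ≠ 0 := by
    rintro rfl
    exact mul_ne_zero hA hD (by simpa using hw)
  have hR0 : ∏ p ∈ (u * v * w).primeFactors, p ≠ 0 :=
    Finset.prod_ne_zero_iff.2 fun p hp => (Nat.prime_of_mem_primeFactors hp).ne_zero
  have hN0 : ∏ p ∈ S, p ≠ 0 := Finset.prod_ne_zero_iff.2 fun p hp => (hS p hp).ne_zero
  rw [← Nat.factorization_prime_le_iff_dvd (mul_ne_zero hg hR0)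
    (mul_ne_zero (mul_ne_zero hX hY) (mul_ne_zero hN0 hD))]
  intro p hp
  rw [Nat.factorization_mul hg hR0, Nat.factorization_mul (mul_ne_zero hX hY) (mul_ne_zero hN0 hD),
    Nat.factorization_mul hX hY, Nat.factorization_mul hN0 hD]
  simp only [Finsupp.add_apply]
  rw [fac_prod _ (fun q hq => Nat.prime_of_mem_primeFactors hq), fac_prod S hS]
  have e1 : 2 * Y.factorization p = g.factorization p + u.factorization p := by
    have := congrArg (fun n => Nat.factorization n p) hu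
    simpa [Nat.factorization_pow, Nat.factorization_mul hg hu0] using this
  have e2 : 3 * X.factorization p = g.factorization p + v.factorization p := by
    have := congrArg (fun n => Nat.factorization n p) hv
    simpa [Nat.factorization_pow, Nat.factorization_mul hg hv0] using this
  have e3 : A.factorization p + D.factorization p = g.factorization p + w.factorization p := by
    have := congrArg (fun n => Nat.factorization n p) hw
    simpa [Nat.factorization_mul hA hD, Nat.factorization_mul hg hw0] using this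
  have e4 : u.factorization p = 0 ∨ v.factorization p = 0 := by
    by_contra hc
    push Not at hc
    have h1 : p ∣ u := Nat.dvd_of_factorization_pos hc.1
    have h2 : p ∣ v := Nat.dvd_of_factorization_pos hc.2
    have h3 := Nat.dvd_gcd h1 h2
    rw [huv] at h3
    exact hp.one_lt.ne' (Nat.dvd_one.1 h3)
  have e5 : p ∈ (u * v * w).primeFactors →
      1 ≤ u.factorization p + v.factorization p + w.factorization p := by
    intro h
    have h1 := (Nat.Prime.dvd_iff_one_le_factorization hp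
      (mul_ne_zero (mul_ne_zero hu0 hv0) hw0)).1 (Nat.dvd_of_mem_primeFactors h)
    rw [Nat.factorization_mul (mul_ne_zero hu0 hv0) hw0, Nat.factorization_mul hu0 hv0] at h1
    simpa using h1
  have e6 : p ∉ S → A.factorization p = 0 := by
    intro h
    exact Nat.factorization_eq_zero_of_not_dvd fun h1 => h (hAS p hp h1)
  have e7 : p ∈ S → ¬ (6 ≤ 3 * X.factorization p ∧ 6 ≤ 2 * Y.factorization p) := by
    intro h h1
    refine hprim p h ⟨?_, ?_⟩
    · rw [hp.pow_dvd_iff_le_factorization (pow_ne_zero 3 hX), Nat.factorization_pow]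
      simpa using h1.1
    · rw [hp.pow_dvd_iff_le_factorization (pow_ne_zero 2 hY), Nat.factorization_pow]
      simpa using h1.2
  by_cases h1 : p ∈ (u * v * w).primeFactors
  · have e5' := e5 h1
    by_cases h2 : p ∈ S
    · have e7' := e7 h2
      rw [if_pos h1, if_pos h2]
      omega
    · have e6' := e6 h2
      rw [if_pos h1, if_neg h2]
      omega
  · by_cases h2 : p ∈ S
    · have e7' := e7 h2
      rw [if_neg h1, if_pos h2]
      omega
    · have e6' := e6 h2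
      rw [if_neg h1, if_neg h2]
      omega

/-! ### the product of the primes -/

/-- `rad n` as a real number -/
noncomputable def rd (n : ℕ) : ℝ := ∏ p ∈ n.primeFactors, (p : ℝ)

theorem rd_cast (n : ℕ) : rd n = ((∏ p ∈ n.primeFactors, p : ℕ) : ℝ) := by
  unfold rd
  push_cast
  rfl

theorem rd_pos (n : ℕ) : 0 < rd n := by
  unfold rd
  exact Finset.prod_pos fun p hp => by exact_mod_cast (Nat.prime_of_mem_primeFactors hp).pos

theorem one_le_rd (n : ℕ) : 1 ≤ rd n := by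
  rw [rd_cast]
  have : 0 < ∏ p ∈ n.primeFactors, p :=
    Finset.prod_pos fun p hp => (Nat.prime_of_mem_primeFactors hp).pos
  exact_mod_cast this

/-- the abc inequality for three numbers, one of which is the sum of the other two -/
theorem three (K δ : ℝ)
    (h : ∀ a b c : ℕ, 0 < a → 0 < b → a.Coprime b → a + b = c →
      (c : ℝ) ≤ K * rd (a * b * c) ^ (1 + δ)) (u v w : ℕ) (hu : 0 < u) (hv : 0 < v) (hw : 0 < w)
    (huv : u.Coprime v) (hs : u = v + w ∨ v = u + w ∨ w = u + v) :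
    (u : ℝ) ≤ K * rd (u * v * w) ^ (1 + δ) ∧ (v : ℝ) ≤ K * rd (u * v * w) ^ (1 + δ) := by
  rcases hs with hs | hs | hs
  · have h1 : v.Coprime w := by
      rw [hs] at huv
      exact ((Nat.coprime_add_self_left).1 (by rwa [add_comm] at huv)).symm
    have h2 := h v w u hv hw h1 hs.symm
    rw [show v * w * u = u * v * w by ring] at h2
    refine ⟨h2, le_trans ?_ h2⟩
    exact_mod_cast (by omega : v ≤ u)
  · have h1 : u.Coprime w := by
      rw [hs] at huv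
      exact (Nat.coprime_add_self_right).1 (by rwa [add_comm] at huv)
    have h2 := h u w v hu hw h1 hs.symm
    rw [show u * w * v = u * v * w by ring] at h2
    refine ⟨le_trans ?_ h2, h2⟩
    exact_mod_cast (by omega : u ≤ v)
  · have h2 := h u v w hu hv huv hs.symm
    refine ⟨le_trans ?_ h2, le_trans ?_ h2⟩
    · exact_mod_cast (by omega : u ≤ w)
    · exact_mod_cast (by omega : v ≤ w)

/-- the last step: real numbers -/
theorem final_real (K δ M Q : ℝ) (hK : 0 < K) (hδ1 : δ < 1 / 5)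
    (hM : 1 ≤ M) (hQ : 1 ≤ Q) (h : M ^ (6 : ℕ) ≤ K * (M ^ (5 : ℕ) * Q) ^ (1 + δ)) :
    M ≤ K ^ (1 / (1 - 5 * δ)) * Q ^ ((1 + δ) / (1 - 5 * δ)) := by
  have hθ : 0 < 1 - 5 * δ := by linarith
  have hM0 : 0 < M := by linarith
  have hQ0 : 0 < Q := by linarith
  have e1 : M ^ (6 : ℕ) = (M ^ (5 : ℕ)) ^ (1 + δ) * M ^ (1 - 5 * δ) := by
    rw [← Real.rpow_natCast M 5, ← Real.rpow_mul hM0.le, ← Real.rpow_add hM0,
      ← Real.rpow_natCast M 6]
    congr 1
    push_cast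
    ring
  rw [Real.mul_rpow (by positivity) hQ0.le, e1] at h
  have h2 : 0 < (M ^ (5 : ℕ)) ^ (1 + δ) := by positivity
  have h3 : M ^ (1 - 5 * δ) ≤ K * Q ^ (1 + δ) := by
    have h4 : (M ^ (5 : ℕ)) ^ (1 + δ) * M ^ (1 - 5 * δ) ≤
        (M ^ (5 : ℕ)) ^ (1 + δ) * (K * Q ^ (1 + δ)) := by linarith
    exact le_of_mul_le_mul_left h4 h2
  have h5 : M = (M ^ (1 - 5 * δ)) ^ (1 / (1 - 5 * δ)) := by
    rw [← Real.rpow_mul hM0.le, mul_one_div_cancel hθ.ne', Real.rpow_one]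
  rw [h5]
  refine (Real.rpow_le_rpow (by positivity) h3 (by positivity)).trans (le_of_eq ?_)
  rw [Real.mul_rpow hK.le (by positivity), ← Real.rpow_mul hQ0.le, mul_one_div]

/-- the case `x y = 0` -/
theorem zero_case_x (S : Finset ℕ) (hS : ∀ p ∈ S, p.Prime) (Y A D : ℕ) (hY : Y ≠ 0) (hA : A ≠ 0)
    (hD : D ≠ 0) (hAS : ∀ p : ℕ, p.Prime → p ∣ A → p ∈ S) (hprim : ∀ p ∈ S, ¬ p ^ 6 ∣ Y ^ 2)
    (h : Y ^ 2 = A * D) : Y ∣ (∏ p ∈ S, p) ^ 2 * D := by
  have hN0 : ∏ p ∈ S, p ≠ 0 := Finset.prod_ne_zero_iff.2 fun p hp => (hS p hp).ne_zero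
  rw [← Nat.factorization_prime_le_iff_dvd hY (mul_ne_zero (pow_ne_zero 2 hN0) hD)]
  intro p hp
  rw [Nat.factorization_mul (pow_ne_zero 2 hN0) hD, Nat.factorization_pow]
  simp only [Finsupp.add_apply, Finsupp.smul_apply, smul_eq_mul]
  rw [fac_prod S hS]
  have e1 : 2 * Y.factorization p = A.factorization p + D.factorization p := by
    have := congrArg (fun n => Nat.factorization n p) h
    simpa [Nat.factorization_pow, Nat.factorization_mul hA hD] using this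
  by_cases h2 : p ∈ S
  · have h3 : ¬ 6 ≤ 2 * Y.factorization p := by
      intro h4
      apply hprim p h2
      rw [hp.pow_dvd_iff_le_factorization (pow_ne_zero 2 hY), Nat.factorization_pow]
      simpa using h4
    rw [if_pos h2]
    omega
  · have h3 : A.factorization p = 0 :=
      Nat.factorization_eq_zero_of_not_dvd fun h1 => h2 (hAS p hp h1)
    rw [if_neg h2]
    omega

theorem zero_case_y (S : Finset ℕ) (hS : ∀ p ∈ S, p.Prime) (X A D : ℕ) (hX : X ≠ 0) (hA : A ≠ 0)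
    (hD : D ≠ 0) (hAS : ∀ p : ℕ, p.Prime → p ∣ A → p ∈ S) (hprim : ∀ p ∈ S, ¬ p ^ 6 ∣ X ^ 3)
    (h : X ^ 3 = A * D) : X ∣ (∏ p ∈ S, p) * D := by
  have hN0 : ∏ p ∈ S, p ≠ 0 := Finset.prod_ne_zero_iff.2 fun p hp => (hS p hp).ne_zero
  rw [← Nat.factorization_prime_le_iff_dvd hX (mul_ne_zero hN0 hD)]
  intro p hp
  rw [Nat.factorization_mul hN0 hD]
  simp only [Finsupp.add_apply]
  rw [fac_prod S hS]
  have e1 : 3 * X.factorization p = A.factorization p + D.factorization p := by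
    have := congrArg (fun n => Nat.factorization n p) h
    simpa [Nat.factorization_pow, Nat.factorization_mul hA hD] using this
  by_cases h2 : p ∈ S
  · have h3 : ¬ 6 ≤ 3 * X.factorization p := by
      intro h4
      apply hprim p h2
      rw [hp.pow_dvd_iff_le_factorization (pow_ne_zero 3 hX), Nat.factorization_pow]
      simpa using h4
    rw [if_pos h2]
    omega
  · have h3 : A.factorization p = 0 :=
      Nat.factorization_eq_zero_of_not_dvd fun h1 => h2 (hAS p hp h1)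
    rw [if_neg h2]
    omega

/-! ### the two conjectures -/

/-- The inequality `max (|x|^(1/2), |y|^(1/3)) ≤ C (N_S |D|)^θ` for all finite sets of primes `S`,
all `D ∈ 𝒟`, all `S`-unit integers `a` and all `S`-primitive solutions of `y² = x³ + a D`. -/
def Hall (𝒟 : Set ℤ) (C θ : ℝ) : Prop :=
  ∀ S : Finset ℕ, (∀ p ∈ S, Nat.Prime p) → ∀ D ∈ 𝒟, ∀ a x y : ℤ, a ≠ 0 →
    (∀ p : ℕ, Nat.Prime p → (p : ℤ) ∣ a → p ∈ S) →
    (∀ p ∈ S, ¬ ((p : ℤ) ^ 6 ∣ x ^ 3 ∧ (p : ℤ) ^ 6 ∣ y ^ 2)) →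
    y ^ 2 = x ^ 3 + a * D →
    max (|(x : ℝ)| ^ ((1 : ℝ) / 2)) (|(y : ℝ)| ^ ((1 : ℝ) / 3)) ≤
      C * ((∏ p ∈ S, (p : ℝ)) * |(D : ℝ)|) ^ θ

/-- The inequality `c ≤ K rad(abc)^θ` for all coprime positive integers with `a + b = c`. -/
def ABC (K θ : ℝ) : Prop :=
  ∀ a b c : ℕ, 0 < a → 0 < b → a.Coprime b → a + b = c →
    (c : ℝ) ≤ K * (∏ p ∈ (a * b * c).primeFactors, (p : ℝ)) ^ θ

/-- from `abc` to the `S`-integral weak Hall inequality -/
theorem hall_of_abc (K δ : ℝ) (hK : 0 < K) (hδ : 0 < δ) (hδ1 : δ < 1 / 5) (h : ABC K (1 + δ)) :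
    Hall {D | D ≠ 0} (max 1 (K ^ (1 / (1 - 5 * δ)))) ((1 + δ) / (1 - 5 * δ)) := by
  intro S hS D hD a x y ha haS hprim hxy
  have hD : D ≠ 0 := hD
  have hθ : 0 < 1 - 5 * δ := by linarith
  -- absolute values
  set X := x.natAbs with hX
  set Y := y.natAbs with hY
  set A := a.natAbs with hA
  set E := D.natAbs with hE
  have hxX : |(x : ℝ)| = (X : ℝ) := by rw [hX, Nat.cast_natAbs, Int.cast_abs]
  have hyY : |(y : ℝ)| = (Y : ℝ) := by rw [hY, Nat.cast_natAbs, Int.cast_abs]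
  have hDE : |(D : ℝ)| = (E : ℝ) := by rw [hE, Nat.cast_natAbs, Int.cast_abs]
  rw [hxX, hyY, hDE]
  have hA0 : A ≠ 0 := Int.natAbs_ne_zero.2 ha
  have hE0 : E ≠ 0 := Int.natAbs_ne_zero.2 hD
  have hAS : ∀ p : ℕ, p.Prime → p ∣ A → p ∈ S := by
    intro p hp h1
    exact haS p hp (Int.natCast_dvd.2 h1)
  have hprim' : ∀ p ∈ S, ¬ (p ^ 6 ∣ X ^ 3 ∧ p ^ 6 ∣ Y ^ 2) := by
    intro p hp h1
    refine hprim p hp ⟨?_, ?_⟩
    · have := Int.natCast_dvd.2 (show p ^ 6 ∣ (x ^ 3).natAbs by rw [Int.natAbs_pow]; exact h1.1)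
      exact_mod_cast this
    · have := Int.natCast_dvd.2 (show p ^ 6 ∣ (y ^ 2).natAbs by rw [Int.natAbs_pow]; exact h1.2)
      exact_mod_cast this
  have hrel : Y ^ 2 = X ^ 3 + A * E ∨ X ^ 3 = Y ^ 2 + A * E ∨ A * E = Y ^ 2 + X ^ 3 := by
    have e1 : ((A * E : ℕ) : ℤ) = |a * D| := by
      push_cast
      rw [hA, hE, Int.natCast_natAbs, Int.natCast_natAbs, abs_mul]
    have e2 : ((Y ^ 2 : ℕ) : ℤ) = y ^ 2 := by
      push_cast
      rw [hY, Int.natCast_natAbs, sq_abs]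
    have e3 : ((X ^ 3 : ℕ) : ℤ) = |x| ^ 3 := by
      push_cast
      rw [hX, Int.natCast_natAbs]
    rcases le_or_gt 0 x with hx | hx
    · have e4 : ((X ^ 3 : ℕ) : ℤ) = x ^ 3 := by rw [e3, abs_of_nonneg hx]
      rcases le_or_gt 0 (a * D) with h1 | h1
      · left
        have : ((Y ^ 2 : ℕ) : ℤ) = ((X ^ 3 + A * E : ℕ) : ℤ) := by
          rw [Nat.cast_add, e1, e2, e4, abs_of_nonneg h1, hxy]
        exact_mod_cast this
      · right; left
        have : ((X ^ 3 : ℕ) : ℤ) = ((Y ^ 2 + A * E : ℕ) : ℤ) := by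
          rw [Nat.cast_add, e1, e2, e4, abs_of_neg h1, hxy]
          ring
        exact_mod_cast this
    · right; right
      have e4 : ((X ^ 3 : ℕ) : ℤ) = -x ^ 3 := by
        rw [e3, abs_of_neg hx]
        ring
      have h2 : x ^ 3 < 0 := by
        have := pow_pos (neg_pos.2 hx) 3
        nlinarith
      have h1 : 0 < a * D := by nlinarith [sq_nonneg y]
      have : ((A * E : ℕ) : ℤ) = ((Y ^ 2 + X ^ 3 : ℕ) : ℤ) := by
        rw [Nat.cast_add, e1, e2, e4, abs_of_pos h1, hxy]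
        ring
      exact_mod_cast this
  -- the product
  set N := ∏ p ∈ S, p with hN
  have hNR : (∏ p ∈ S, (p : ℝ)) = (N : ℝ) := by rw [hN]; push_cast; rfl
  have hN0 : N ≠ 0 := Finset.prod_ne_zero_iff.2 fun p hp => (hS p hp).ne_zero
  rw [hNR]
  set Q : ℝ := (N : ℝ) * (E : ℝ) with hQ
  have hQ1 : 1 ≤ Q := by
    rw [hQ]
    have h1 : 1 ≤ N * E := Nat.one_le_iff_ne_zero.2 (mul_ne_zero hN0 hE0)
    exact_mod_cast h1
  have hθ1 : 1 ≤ (1 + δ) / (1 - 5 * δ) := by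
    rw [le_div_iff₀ hθ]
    linarith
  have hQθ : Q ≤ Q ^ ((1 + δ) / (1 - 5 * δ)) := by
    conv_lhs => rw [← Real.rpow_one Q]
    exact Real.rpow_le_rpow_of_exponent_le hQ1 hθ1
  have hsmall : ∀ M : ℝ, M ≤ Q →
      M ≤ max 1 (K ^ (1 / (1 - 5 * δ))) * Q ^ ((1 + δ) / (1 - 5 * δ)) := by
    intro M hM
    refine hM.trans (hQθ.trans ?_)
    have h1 : 0 ≤ Q ^ ((1 + δ) / (1 - 5 * δ)) := by positivity
    nlinarith [le_max_left (1 : ℝ) (K ^ (1 / (1 - 5 * δ)))]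
  by_cases hx0 : X = 0
  · -- `x = 0`
    have hY0 : Y ≠ 0 := by
      rintro h0
      rw [hx0, h0] at hrel
      have := Nat.pos_of_ne_zero (mul_ne_zero hA0 hE0)
      omega
    have hYY : Y ^ 2 = A * E := by
      rw [hx0] at hrel
      have := Nat.pos_of_ne_zero (mul_ne_zero hA0 hE0)
      have := Nat.pos_of_ne_zero (pow_ne_zero 2 hY0)
      omega
    have h1 := zero_case_x S hS Y A E hY0 hA0 hE0 hAS (fun p hp h2 => hprim' p hp ⟨by
      rw [hx0]; simp, h2⟩) hYY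
    have h2 := Nat.le_of_dvd (Nat.pos_of_ne_zero (mul_ne_zero (pow_ne_zero 2 hN0) hE0)) h1
    have h3 : (Y : ℝ) ≤ Q ^ (3 : ℕ) := by
      have h4 : (Y : ℝ) ≤ (N : ℝ) ^ 2 * E := by exact_mod_cast h2
      have h5 : (1 : ℝ) ≤ N := by exact_mod_cast Nat.one_le_iff_ne_zero.2 hN0
      have h6 : (1 : ℝ) ≤ E := by exact_mod_cast Nat.one_le_iff_ne_zero.2 hE0
      refine h4.trans ?_
      rw [hQ]
      have h7 : (1 : ℝ) ≤ N * E ^ 2 := by nlinarith
      calc (N : ℝ) ^ 2 * E = (N : ℝ) ^ 2 * E * 1 := by ring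
        _ ≤ (N : ℝ) ^ 2 * E * (N * E ^ 2) := mul_le_mul_of_nonneg_left h7 (by positivity)
        _ = ((N : ℝ) * E) ^ 3 := by ring
    refine hsmall _ (max_le ?_ ?_)
    · rw [hx0, Nat.cast_zero, Real.zero_rpow (by norm_num)]
      linarith
    · refine (Real.rpow_le_rpow (Nat.cast_nonneg _) h3 (by norm_num)).trans (le_of_eq ?_)
      rw [← Real.rpow_natCast, ← Real.rpow_mul (by linarith)]
      norm_num
  by_cases hy0 : Y = 0
  · -- `y = 0`
    have hXX : X ^ 3 = A * E := by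
      rw [hy0] at hrel
      have := Nat.pos_of_ne_zero (mul_ne_zero hA0 hE0)
      have := Nat.pos_of_ne_zero (pow_ne_zero 3 hx0)
      omega
    have h1 := zero_case_y S hS X A E hx0 hA0 hE0 hAS (fun p hp h2 => hprim' p hp ⟨h2, by
      rw [hy0]; simp⟩) hXX
    have h2 := Nat.le_of_dvd (Nat.pos_of_ne_zero (mul_ne_zero hN0 hE0)) h1
    have h3 : (X : ℝ) ≤ Q := by
      rw [hQ]
      exact_mod_cast h2
    refine hsmall _ (max_le ?_ ?_)
    · have h4 : (X : ℝ) ^ ((1 : ℝ) / 2) ≤ Q ^ ((1 : ℝ) / 2) :=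
        Real.rpow_le_rpow (Nat.cast_nonneg _) h3 (by norm_num)
      refine h4.trans ?_
      conv_rhs => rw [← Real.rpow_one Q]
      exact Real.rpow_le_rpow_of_exponent_le hQ1 (by norm_num)
    · rw [hy0, Nat.cast_zero, Real.zero_rpow (by norm_num)]
      linarith
  -- the main case
  set g := Nat.gcd (Y ^ 2) (X ^ 3) with hg
  have hg0 : g ≠ 0 := by
    rw [hg]
    exact Nat.gcd_ne_zero_left (pow_ne_zero 2 hy0)
  obtain ⟨u, hu⟩ := Nat.gcd_dvd_left (Y ^ 2) (X ^ 3)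
  obtain ⟨v, hv⟩ := Nat.gcd_dvd_right (Y ^ 2) (X ^ 3)
  rw [← hg] at hu hv
  have hgw : g ∣ A * E := by
    have h1 : g ∣ Y ^ 2 := ⟨u, hu⟩
    have h2 : g ∣ X ^ 3 := ⟨v, hv⟩
    rcases hrel with h3 | h3 | h3
    · exact (Nat.dvd_add_right h2).1 (h3 ▸ h1)
    · exact (Nat.dvd_add_right h1).1 (h3 ▸ h2)
    · exact h3 ▸ dvd_add h1 h2
  obtain ⟨w, hw⟩ := hgw
  have hgp : 0 < g := Nat.pos_of_ne_zero hg0
  have huv : u.Coprime v := by
    have h1 : g * Nat.gcd u v = g * 1 := by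
      rw [← Nat.gcd_mul_left, ← hu, ← hv, ← hg, mul_one]
    exact Nat.eq_of_mul_eq_mul_left hgp h1
  have hu0 : 0 < u := by
    rcases Nat.eq_zero_or_pos u with h1 | h1
    · rw [h1, mul_zero] at hu
      exact absurd hu (pow_ne_zero 2 hy0)
    · exact h1
  have hv0 : 0 < v := by
    rcases Nat.eq_zero_or_pos v with h1 | h1
    · rw [h1, mul_zero] at hv
      exact absurd hv (pow_ne_zero 3 hx0)
    · exact h1
  have hw0 : 0 < w := by
    rcases Nat.eq_zero_or_pos w with h1 | h1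
    · rw [h1, mul_zero] at hw
      exact absurd hw (mul_ne_zero hA0 hE0)
    · exact h1
  have hs : u = v + w ∨ v = u + w ∨ w = u + v := by
    rw [hu, hv, hw] at hrel
    rcases hrel with h1 | h1 | h1
    · left
      exact Nat.eq_of_mul_eq_mul_left hgp (by rw [h1]; ring)
    · right; left
      exact Nat.eq_of_mul_eq_mul_left hgp (by rw [h1]; ring)
    · right; right
      exact Nat.eq_of_mul_eq_mul_left hgp (by rw [h1]; ring)
  have h3 := three K δ h u v w hu0 hv0 hw0 huv hs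
  have hk := key S hS X Y A E g u v w hx0 hy0 hA0 hE0 hAS hprim' hg0 hu hv hw huv
  have hk2 := Nat.le_of_dvd (Nat.pos_of_ne_zero (mul_ne_zero (mul_ne_zero hx0 hy0)
    (mul_ne_zero hN0 hE0))) hk
  set R := rd (u * v * w) with hR
  have hR0 : 0 < R := rd_pos _
  have hgR : (g : ℝ) * R ≤ (X : ℝ) * Y * Q := by
    rw [hR, rd_cast, hQ]
    exact_mod_cast hk2
  set M : ℝ := max ((X : ℝ) ^ ((1 : ℝ) / 2)) ((Y : ℝ) ^ ((1 : ℝ) / 3)) with hM
  have hX1 : (1 : ℝ) ≤ X := by exact_mod_cast Nat.one_le_iff_ne_zero.2 hx0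
  have hY1 : (1 : ℝ) ≤ Y := by exact_mod_cast Nat.one_le_iff_ne_zero.2 hy0
  have hM1 : 1 ≤ M := (Real.one_le_rpow hX1 (by norm_num)).trans (le_max_left _ _)
  have hMX : (X : ℝ) ≤ M ^ (2 : ℕ) := by
    have h4 : (X : ℝ) = ((X : ℝ) ^ ((1 : ℝ) / 2)) ^ (2 : ℕ) := by
      rw [← Real.rpow_natCast, ← Real.rpow_mul (by linarith)]
      norm_num
    rw [h4]
    exact pow_le_pow_left₀ (by positivity) (le_max_left _ _) 2
  have hMY : (Y : ℝ) ≤ M ^ (3 : ℕ) := by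
    have h4 : (Y : ℝ) = ((Y : ℝ) ^ ((1 : ℝ) / 3)) ^ (3 : ℕ) := by
      rw [← Real.rpow_natCast, ← Real.rpow_mul (by linarith)]
      norm_num
    rw [h4]
    exact pow_le_pow_left₀ (by positivity) (le_max_right _ _) 3
  have hg1 : (1 : ℝ) ≤ g := by exact_mod_cast hgp
  have hM6 : M ^ (6 : ℕ) ≤ K * ((g : ℝ) * R ^ (1 + δ)) := by
    rcases le_total ((Y : ℝ) ^ ((1 : ℝ) / 3)) ((X : ℝ) ^ ((1 : ℝ) / 2)) with h4 | h4
    · have h5 : M ^ (6 : ℕ) = (X : ℝ) ^ (3 : ℕ) := by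
        rw [hM, max_eq_left h4, ← Real.rpow_natCast, ← Real.rpow_mul (by linarith),
          ← Real.rpow_natCast]
        norm_num
      have h6 : (X : ℝ) ^ (3 : ℕ) = g * v := by exact_mod_cast hv
      rw [h5, h6]
      nlinarith [h3.2]
    · have h5 : M ^ (6 : ℕ) = (Y : ℝ) ^ (2 : ℕ) := by
        rw [hM, max_eq_right h4, ← Real.rpow_natCast, ← Real.rpow_mul (by linarith),
          ← Real.rpow_natCast]
        norm_num
      have h6 : (Y : ℝ) ^ (2 : ℕ) = g * u := by exact_mod_cast hu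
      rw [h5, h6]
      nlinarith [h3.1]
  have h7 : (g : ℝ) * R ^ (1 + δ) ≤ (M ^ (5 : ℕ) * Q) ^ (1 + δ) := by
    have h8 : (g : ℝ) * R ^ (1 + δ) ≤ ((g : ℝ) * R) ^ (1 + δ) := by
      rw [Real.mul_rpow (by linarith) hR0.le]
      refine mul_le_mul_of_nonneg_right ?_ (by positivity)
      conv_lhs => rw [← Real.rpow_one (g : ℝ)]
      exact Real.rpow_le_rpow_of_exponent_le hg1 (by linarith)
    refine h8.trans (Real.rpow_le_rpow (by positivity) ?_ (by linarith))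
    refine hgR.trans ?_
    have h9 : (X : ℝ) * Y ≤ M ^ (5 : ℕ) := by
      calc (X : ℝ) * Y ≤ M ^ (2 : ℕ) * M ^ (3 : ℕ) :=
            mul_le_mul hMX hMY (by linarith) (by positivity)
        _ = M ^ (5 : ℕ) := by ring
    exact mul_le_mul_of_nonneg_right h9 (by linarith)
  have h10 : M ^ (6 : ℕ) ≤ K * (M ^ (5 : ℕ) * Q) ^ (1 + δ) :=
    hM6.trans (mul_le_mul_of_nonneg_left h7 hK.le)
  refine (final_real K δ M Q hK hδ1 hM1 hQ1 h10).trans ?_
  exact mul_le_mul_of_nonneg_right (le_max_right _ _) (by positivity)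


theorem nine_dvd (a b : ℤ) (h : (9 : ℤ) ∣ a ^ 2 + a * b + b ^ 2) : (3 : ℤ) ∣ a ∧ (3 : ℤ) ∣ b := by
  have h3 : Prime (3 : ℤ) := Int.prime_three
  have e1 : a ^ 2 + a * b + b ^ 2 = (a - b) ^ 2 + 3 * (a * b) := by ring
  have h1 : (3 : ℤ) ∣ (a - b) ^ 2 := by
    have h2 : (3 : ℤ) ∣ a ^ 2 + a * b + b ^ 2 := Dvd.dvd.trans ⟨3, by norm_num⟩ h
    rw [e1] at h2
    exact (dvd_add_left ⟨a * b, rfl⟩).1 h2
  have h2 : (3 : ℤ) ∣ a - b := h3.dvd_of_dvd_pow h1
  obtain ⟨t, ht⟩ := h2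
  obtain ⟨s, hs⟩ := h
  have h4 : (3 : ℤ) ∣ a * b := by
    refine ⟨s - t ^ 2, ?_⟩
    have e2 : (a - b) ^ 2 + 3 * (a * b) = 9 * s := by rw [← e1, hs]
    rw [ht] at e2
    linarith
  rcases h3.dvd_or_dvd h4 with h5 | h5
  · obtain ⟨r, hr⟩ := h5
    exact ⟨⟨r, hr⟩, ⟨r - t, by linarith⟩⟩
  · obtain ⟨r, hr⟩ := h5
    exact ⟨⟨r + t, by linarith⟩, ⟨r, hr⟩⟩

theorem even_mul (a b : ℤ) : (2 : ℤ) ∣ (a - b) * (2 * a + b) * (a + 2 * b) := by
  rcases Int.even_or_odd a with ⟨r, hr⟩ | ⟨r, hr⟩ <;> rcases Int.even_or_odd b with ⟨s, hs⟩ | ⟨s, hs⟩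
  · exact Dvd.dvd.mul_left ⟨r + b, by rw [hr]; ring⟩ _
  · exact Dvd.dvd.mul_left ⟨r + b, by rw [hr]; ring⟩ _
  · exact Dvd.dvd.mul_right (Dvd.dvd.mul_left ⟨a + s, by rw [hs]; ring⟩ _) _
  · exact Dvd.dvd.mul_right (Dvd.dvd.mul_right ⟨r - s, by rw [hr, hs]; ring⟩ _) _

theorem even_mul2 (a b : ℤ) : (2 : ℤ) ∣ a * b * (a + b) := by
  rcases Int.even_or_odd a with ⟨r, hr⟩ | ⟨r, hr⟩ <;> rcases Int.even_or_odd b with ⟨s, hs⟩ | ⟨s, hs⟩
  · exact Dvd.dvd.mul_right (Dvd.dvd.mul_right ⟨r, by rw [hr]; ring⟩ _) _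
  · exact Dvd.dvd.mul_right (Dvd.dvd.mul_right ⟨r, by rw [hr]; ring⟩ _) _
  · exact Dvd.dvd.mul_right (Dvd.dvd.mul_left ⟨s, by rw [hs]; ring⟩ _) _
  · exact Dvd.dvd.mul_left ⟨r + s + 1, by rw [hr, hs]; ring⟩ _

/-- from the `S`-integral weak Hall inequality, only for `D = 1`, to `abc` -/
theorem abc_of_hall (C θ : ℝ) (hC : 0 < C) (hθ : 0 < θ) (h : Hall {1} C θ) :
    ABC (2 * 3 ^ θ * C) θ := by
  intro a b c ha hb hab habc
  obtain ⟨y, hy⟩ := even_mul a b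
  obtain ⟨M, hM⟩ := even_mul2 a b
  set x : ℤ := (a : ℤ) ^ 2 + a * b + b ^ 2 with hx
  have ha' : (0 : ℤ) < a := by exact_mod_cast ha
  have hb' : (0 : ℤ) < b := by exact_mod_cast hb
  have hM0 : M ≠ 0 := by
    rintro rfl
    have : (0 : ℤ) < (a : ℤ) * b * (a + b) := by positivity
    omega
  have hmain : y ^ 2 = x ^ 3 + (-27 * M ^ 2) * 1 := by
    have e : 4 * x ^ 3 = ((a - b) * (2 * a + b) * (a + 2 * b) : ℤ) ^ 2 +
        27 * ((a : ℤ) * b * (a + b)) ^ 2 := by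
      rw [hx]
      ring
    rw [hy, hM] at e
    linarith
  have hc' : (a : ℤ) * b * (a + b) = ((a * b * c : ℕ) : ℤ) := by
    rw [← habc]
    push_cast
    ring
  have hc0 : 0 < c := by omega
  have hn0 : a * b * c ≠ 0 := by positivity
  set S : Finset ℕ := insert 3 (a * b * c).primeFactors with hS
  have hSp : ∀ p ∈ S, p.Prime := by
    intro p hp
    rw [hS, Finset.mem_insert] at hp
    rcases hp with rfl | hp
    · exact Nat.prime_three
    · exact Nat.prime_of_mem_primeFactors hp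
  have haS : ∀ p : ℕ, p.Prime → (p : ℤ) ∣ -27 * M ^ 2 → p ∈ S := by
    intro p hp h1
    have hp' : Prime (p : ℤ) := Nat.prime_iff_prime_int.1 hp
    rw [hS, Finset.mem_insert]
    rcases hp'.dvd_or_dvd h1 with h2 | h2
    · left
      have h3 : (p : ℤ) ∣ (3 : ℤ) ^ 3 := by
        rw [dvd_neg] at h2
        exact h2
      have h4 := hp'.dvd_of_dvd_pow h3
      have h5 : p ∣ 3 := by exact_mod_cast h4
      exact (Nat.prime_dvd_prime_iff_eq hp Nat.prime_three).1 h5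
    · right
      have h3 := hp'.dvd_of_dvd_pow h2
      have h4 : (p : ℤ) ∣ ((a * b * c : ℕ) : ℤ) := by
        rw [← hc', hM]
        exact Dvd.dvd.mul_left h3 2
      exact Nat.mem_primeFactors.2 ⟨hp, by exact_mod_cast h4, hn0⟩
  have hcop : IsCoprime (a : ℤ) (b : ℤ) := Nat.isCoprime_iff_coprime.2 hab
  have hprim : ∀ p ∈ S, ¬ ((p : ℤ) ^ 6 ∣ x ^ 3 ∧ (p : ℤ) ^ 6 ∣ y ^ 2) := by
    rintro p hp ⟨h1, -⟩
    have hpp := hSp p hp
    have hp' : Prime (p : ℤ) := Nat.prime_iff_prime_int.1 hpp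
    have h2 : (p : ℤ) ^ 2 ∣ x := by
      rw [show (6 : ℕ) = 2 * 3 from rfl, pow_mul] at h1
      exact (Int.pow_dvd_pow_iff (by norm_num)).1 h1
    have hboth : ¬ ((p : ℤ) ∣ a ∧ (p : ℤ) ∣ b) := by
      rintro ⟨h3, h4⟩
      exact hp'.not_isUnit (hcop.isUnit_of_dvd' h3 h4)
    rw [hS, Finset.mem_insert] at hp
    rcases hp with rfl | hp
    · apply hboth
      have h3 : (9 : ℤ) ∣ (a : ℤ) ^ 2 + a * b + b ^ 2 := by
        rw [← hx]
        have : ((3 : ℕ) : ℤ) ^ 2 = 9 := by norm_num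
        rwa [this] at h2
      exact nine_dvd _ _ h3
    · have h3 : (p : ℤ) ∣ x := Dvd.dvd.trans (Dvd.intro_left _ (by ring_nf : (p : ℤ) * p = (p : ℤ) ^ 2)) h2
      have h4 : (p : ℤ) ∣ (a : ℤ) * b * (a + b) := by
        rw [hc']
        exact_mod_cast Nat.dvd_of_mem_primeFactors hp
      rcases hp'.dvd_or_dvd h4 with h5 | h5
      · rcases hp'.dvd_or_dvd h5 with h6 | h6
        · apply hboth
          refine ⟨h6, ?_⟩
          have h7 : (p : ℤ) ∣ (b : ℤ) ^ 2 := by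
            have e : (b : ℤ) ^ 2 = x - a * (a + b) := by rw [hx]; ring
            rw [e]
            exact dvd_sub h3 (Dvd.dvd.mul_right h6 _)
          exact hp'.dvd_of_dvd_pow h7
        · apply hboth
          refine ⟨?_, h6⟩
          have h7 : (p : ℤ) ∣ (a : ℤ) ^ 2 := by
            have e : (a : ℤ) ^ 2 = x - b * (a + b) := by rw [hx]; ring
            rw [e]
            exact dvd_sub h3 (Dvd.dvd.mul_right h6 _)
          exact hp'.dvd_of_dvd_pow h7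
      · have h6 : (p : ℤ) ∣ (a : ℤ) * b := by
          have e : (a : ℤ) * b = (a + b) * (a + b) - x := by rw [hx]; ring
          rw [e]
          exact dvd_sub (Dvd.dvd.mul_right h5 _) h3
        apply hboth
        rcases hp'.dvd_or_dvd h6 with h7 | h7
        · exact ⟨h7, (dvd_add_right h7).1 h5⟩
        · exact ⟨(dvd_add_left h7).1 h5, h7⟩
  have hres := h S hSp 1 rfl (-27 * M ^ 2) x y
    (mul_ne_zero (by norm_num) (pow_ne_zero 2 hM0)) haS hprim hmain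
  have h1 := (le_max_left _ _).trans hres
  -- lower bound for the left side
  have h2 : (c : ℝ) / 2 ≤ |(x : ℝ)| ^ ((1 : ℝ) / 2) := by
    have hxc : ((c : ℝ) / 2) ^ 2 ≤ |(x : ℝ)| := by
      refine le_trans ?_ (le_abs_self _)
      have e : (x : ℝ) = (a : ℝ) ^ 2 + a * b + b ^ 2 := by rw [hx]; push_cast; ring
      rw [e, ← habc]
      push_cast
      have ha2 : (0 : ℝ) ≤ a := Nat.cast_nonneg _
      have hb2 : (0 : ℝ) ≤ b := Nat.cast_nonneg _
      nlinarith [mul_nonneg ha2 hb2, sq_nonneg ((a : ℝ) - b)]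
    have h3 := Real.rpow_le_rpow (by positivity) hxc (show (0 : ℝ) ≤ 1 / 2 by norm_num)
    refine le_trans (le_of_eq ?_) h3
    rw [← Real.rpow_natCast, ← Real.rpow_mul (by positivity)]
    norm_num
  -- upper bound for the product
  have h3 : (∏ p ∈ S, (p : ℝ)) ≤ 3 * ∏ p ∈ (a * b * c).primeFactors, (p : ℝ) := by
    have hr := one_le_rd (a * b * c)
    unfold rd at hr
    by_cases h4 : 3 ∈ (a * b * c).primeFactors
    · rw [hS, Finset.insert_eq_of_mem h4]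
      linarith
    · rw [hS, Finset.prod_insert h4]
      norm_num
  have h4 : 0 ≤ ∏ p ∈ S, (p : ℝ) := Finset.prod_nonneg fun p _ => Nat.cast_nonneg _
  have hr0 : 0 ≤ ∏ p ∈ (a * b * c).primeFactors, (p : ℝ) :=
    Finset.prod_nonneg fun p _ => Nat.cast_nonneg _
  have h5 : ((∏ p ∈ S, (p : ℝ)) * |((1 : ℤ) : ℝ)|) ^ θ ≤
      3 ^ θ * (∏ p ∈ (a * b * c).primeFactors, (p : ℝ)) ^ θ := by
    rw [Int.cast_one, abs_one, mul_one, ← Real.mul_rpow (by norm_num) hr0]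
    exact Real.rpow_le_rpow h4 h3 hθ.le
  have h6 : (c : ℝ) / 2 ≤ C * (3 ^ θ * (∏ p ∈ (a * b * c).primeFactors, (p : ℝ)) ^ θ) :=
    h2.trans (h1.trans (mul_le_mul_of_nonneg_left h5 hC.le))
  linarith

/-- the two numbers that occur in the exponent -/
theorem exponent (ε : ℝ) (hε : 0 < ε) :
    0 < ε / (6 + 5 * ε) ∧ ε / (6 + 5 * ε) < 1 / 5 ∧
      (1 + ε / (6 + 5 * ε)) / (1 - 5 * (ε / (6 + 5 * ε))) = 1 + ε := by
  have h : 0 < 6 + 5 * ε := by linarith
  refine ⟨by positivity, ?_, ?_⟩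
  · rw [div_lt_div_iff₀ h (by norm_num)]
    linarith
  · have h1 : 1 - 5 * (ε / (6 + 5 * ε)) = 6 / (6 + 5 * ε) := by
      field_simp
      ring
    rw [h1]
    field_simp
    ring

/-- The conjecture of Q1 (for all nonzero `D`, and already for `D = 1`) is equivalent to the
`abc` conjecture; from Q1 to `abc` the exponent stays the same. -/
theorem result :
    ((∀ ε : ℝ, 0 < ε → ∃ C : ℝ, 0 < C ∧
      ∀ S : Finset ℕ, (∀ p ∈ S, Nat.Prime p) →
        ∀ D : ℤ, D ≠ 0 →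
          ∀ a x y : ℤ, a ≠ 0 →
            (∀ p : ℕ, Nat.Prime p → (p : ℤ) ∣ a → p ∈ S) →
            (∀ p ∈ S, ¬ ((p : ℤ) ^ 6 ∣ x ^ 3 ∧ (p : ℤ) ^ 6 ∣ y ^ 2)) →
            y ^ 2 = x ^ 3 + a * D →
            max (|(x : ℝ)| ^ ((1 : ℝ) / 2)) (|(y : ℝ)| ^ ((1 : ℝ) / 3))
              ≤ C * ((∏ p ∈ S, (p : ℝ)) * |(D : ℝ)|) ^ (1 + ε)) ↔
      ∀ ε : ℝ, 0 < ε → ∃ K : ℝ, 0 < K ∧ ABC K (1 + ε)) ∧
    ((∀ ε : ℝ, 0 < ε → ∃ C : ℝ, 0 < C ∧ Hall {1} C (1 + ε)) ↔
      ∀ ε : ℝ, 0 < ε → ∃ K : ℝ, 0 < K ∧ ABC K (1 + ε)) ∧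
    ∀ C θ : ℝ, 0 < C → 0 < θ → Hall {1} C θ → ABC (2 * 3 ^ θ * C) θ := by
  have key1 : (∀ ε : ℝ, 0 < ε → ∃ K : ℝ, 0 < K ∧ ABC K (1 + ε)) →
      ∀ ε : ℝ, 0 < ε → ∃ C : ℝ, 0 < C ∧ Hall {D | D ≠ 0} C (1 + ε) := by
    intro h ε hε
    obtain ⟨h1, h2, h3⟩ := exponent ε hε
    obtain ⟨K, hK, hK'⟩ := h _ h1
    have h4 := hall_of_abc K _ hK h1 h2 hK'
    rw [h3] at h4
    exact ⟨_, lt_of_lt_of_le one_pos (le_max_left _ _), h4⟩
  have key2 : (∀ ε : ℝ, 0 < ε → ∃ C : ℝ, 0 < C ∧ Hall {1} C (1 + ε)) →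
      ∀ ε : ℝ, 0 < ε → ∃ K : ℝ, 0 < K ∧ ABC K (1 + ε) := by
    intro h ε hε
    obtain ⟨C, hC, hC'⟩ := h ε hε
    exact ⟨2 * 3 ^ (1 + ε) * C, by positivity, abc_of_hall C (1 + ε) hC (by linarith) hC'⟩
  have key3 : ∀ C θ : ℝ, Hall {D | D ≠ 0} C θ → Hall {1} C θ := by
    intro C θ h S hS D hD
    exact h S hS D (by
      rw [Set.mem_singleton_iff.1 hD]
      exact one_ne_zero)
  refine ⟨⟨fun h => key2 fun ε hε => ?_, fun h => key1 h⟩,
    ⟨key2, fun h ε hε => ?_⟩, fun C θ hC hθ h => abc_of_hall C θ hC hθ h⟩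
  · obtain ⟨C, hC, hC'⟩ := h ε hε
    exact ⟨C, hC, key3 _ _ hC'⟩
  · obtain ⟨C, hC, hC'⟩ := key1 h ε hε
    exact ⟨C, hC, key3 _ _ hC'⟩

end Pool.Agent.Results.MP_2155e3_nt.EquivalentToABC
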