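import Mathlib

/-!
# MP_2155e3_nt : the exponent `1 + ε` cannot be replaced by `1`, for any fixed nonempty `S`

With `a² - 125 b² = 1`, `r = 2 b (a + 11 b)` and `w = 22 a b + a² + 125 b²` one has
`w² = 125 r² + 22 r + 1`, and
`((15625 r² + 500 r - 1) w)² = (3125 r² + 250 r + 1)³ - 1728 r`.
If `b` is divisible by a high power of a prime `p ∈ S`, this power is absorbed by the `S`-unit.
-/

namespace Pool.Agent.Results.MP_2155e3_nt.LogGrowth

open Real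

section pell

variable (s : Pell.Solution₁ (125 : ℤ))

theorem pow_form (m : ℕ) : ∃ t u : ℤ,
    (s ^ m).y = s.y * (m * s.x ^ (m - 1) + s.y * t) ∧ (s ^ m).x = s.x ^ m + s.y * u := by
  induction m with
  | zero => exact ⟨0, 0, by simp, by simp⟩
  | succ m ih =>
    obtain ⟨t, u, h1, h2⟩ := ih
    rw [pow_succ, Pell.Solution₁.y_mul, Pell.Solution₁.x_mul, h1, h2]
    refine ⟨u + t * s.x, u * s.x + 125 * (s.y * (m * s.x ^ (m - 1) + s.y * t)), ?_, by ring⟩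
    rcases m with _ | m
    · simp only [pow_zero, Nat.cast_zero, zero_mul, zero_add, Nat.cast_one]
      push_cast
      ring
    · simp only [Nat.add_sub_cancel]
      push_cast
      ring

theorem dvd_pow_y (N p : ℤ) (k : ℕ) (q : ℕ) (hq : (q : ℤ) = p) (hN : N ∣ s.y) (hp : p ∣ N) :
    p ^ k * N ∣ (s ^ (q ^ k)).y := by
  induction k with
  | zero => simpa using hN
  | succ k ih =>
    rw [pow_succ q k, pow_mul]
    obtain ⟨t, u, h1, -⟩ := pow_form (s ^ q ^ k) q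
    rw [h1]
    have h2 : p ∣ (s ^ q ^ k).y := (hp.trans (dvd_mul_left N (p ^ k))).trans ih
    have h3 : p ∣ ((q : ℤ) * (s ^ q ^ k).x ^ (q - 1) + (s ^ q ^ k).y * t) :=
      dvd_add (hq ▸ dvd_mul_right _ _) (h2.mul_right t)
    have h4 := mul_dvd_mul ih h3
    refine dvd_trans ?_ h4
    rw [pow_succ]
    exact ⟨1, by ring⟩

theorem x_bound (hx : 0 < s.x) (hy : 0 < s.y) (m : ℕ) :
    0 < (s ^ m).x ∧ 0 ≤ (s ^ m).y ∧ (s ^ m).x ≤ (2 * s.x) ^ m := by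
  induction m with
  | zero => simp
  | succ m ih =>
    obtain ⟨h1, h2, h3⟩ := ih
    have e1 := (s ^ m).prop
    have e2 := s.prop
    have h5 : 125 * ((s ^ m).y * s.y) ≤ (s ^ m).x * s.x := by
      have : (125 * ((s ^ m).y * s.y)) ^ 2 ≤ ((s ^ m).x * s.x) ^ 2 := by
        have a1 : 125 * (s ^ m).y ^ 2 ≤ (s ^ m).x ^ 2 := by linarith
        have a2 : 125 * s.y ^ 2 ≤ s.x ^ 2 := by linarith
        calc (125 * ((s ^ m).y * s.y)) ^ 2 = (125 * (s ^ m).y ^ 2) * (125 * s.y ^ 2) := by ring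
          _ ≤ (s ^ m).x ^ 2 * s.x ^ 2 := by
            apply mul_le_mul a1 a2 (by positivity) (by positivity)
          _ = ((s ^ m).x * s.x) ^ 2 := by ring
      exact abs_le_of_sq_le_sq' this (by positivity) |>.2
    rw [pow_succ, Pell.Solution₁.y_mul, Pell.Solution₁.x_mul]
    refine ⟨by positivity, by positivity, ?_⟩
    calc (s ^ m).x * s.x + 125 * ((s ^ m).y * s.y) ≤ 2 * ((s ^ m).x * s.x) := by linarith
      _ = (s ^ m).x * (2 * s.x) := by ring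
      _ ≤ (2 * s.x) ^ m * (2 * s.x) := by
        apply mul_le_mul_of_nonneg_right h3 (by positivity)
      _ = (2 * s.x) ^ (m + 1) := by ring

end pell

theorem w_sq {a b r w : ℤ} (h : a ^ 2 - 125 * b ^ 2 = 1) (hr : r = 2 * b * (a + 11 * b))
    (hw : w = 22 * a * b + a ^ 2 + 125 * b ^ 2) : w ^ 2 = 125 * r ^ 2 + 22 * r + 1 := by
  subst hr hw
  have ha : a ^ 2 = 125 * b ^ 2 + 1 := by linarith
  have e4 : a ^ 4 = (125 * b ^ 2 + 1) ^ 2 := by rw [← ha]; ring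
  have e3 : a ^ 3 = a * (125 * b ^ 2 + 1) := by rw [← ha]; ring
  nlinarith [e4, e3, ha]

theorem main_identity {r w : ℤ} (h : w ^ 2 = 125 * r ^ 2 + 22 * r + 1) :
    ((15625 * r ^ 2 + 500 * r - 1) * w) ^ 2 =
      (3125 * r ^ 2 + 250 * r + 1) ^ 3 - 1728 * r := by
  linear_combination (15625 * r ^ 2 + 500 * r - 1) ^ 2 * h

/-- a Pell solution divisible by `N` -/
theorem exists_sol (N : ℤ) (hN : 0 < N) :
    ∃ s : Pell.Solution₁ (125 : ℤ), 0 < s.x ∧ 0 < s.y ∧ N ∣ s.y := by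
  have hns : ¬ IsSquare (125 * N ^ 2) := by
    rintro ⟨c, hc⟩
    have h5 : Irrational (√5) := by
      have := Nat.Prime.irrational_sqrt (p := 5) (by norm_num)
      simpa using this
    apply h5
    have hc' : ((c : ℝ)) ^ 2 = 125 * (N : ℝ) ^ 2 := by
      have : ((c * c : ℤ) : ℝ) = ((125 * N ^ 2 : ℤ) : ℝ) := by rw [hc]
      push_cast at this
      nlinarith
    have hNr : (0 : ℝ) < N := by exact_mod_cast hN
    refine ⟨((|c| : ℤ) : ℚ) / (5 * N), ?_⟩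
    have h1 : (√5 : ℝ) = √((|(c : ℝ)| / (5 * N)) ^ 2) := by
      congr 1
      rw [div_pow, sq_abs, hc']
      field_simp
      norm_num
    rw [h1, Real.sqrt_sq (by positivity)]
    push_cast
    rfl
  obtain ⟨x, y, h, hy⟩ := Pell.exists_of_not_isSquare (by positivity) hns
  have hx : x ≠ 0 := by
    rintro rfl
    have : 0 ≤ 125 * N ^ 2 * y ^ 2 := by positivity
    linarith
  refine ⟨Pell.Solution₁.mk |x| (N * |y|) ?_, ?_, ?_, ?_⟩
  · rw [sq_abs, mul_pow, sq_abs]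
    linarith
  · simpa using hx
  · simp only [Pell.Solution₁.y_mk]
    have := abs_pos.2 hy
    positivity
  · simp

/-- solutions divisible by high powers of `p` -/
theorem exists_pow (N : ℤ) (hN : 0 < N) (p : ℕ) (hp : 0 < p) (hpN : (p : ℤ) ∣ N) :
    ∃ X : ℤ, 0 < X ∧ ∀ k : ℕ, ∃ a b : ℤ, 0 < a ∧ 0 < b ∧ a ^ 2 - 125 * b ^ 2 = 1 ∧
      (p : ℤ) ^ k * N ∣ b ∧ a ≤ (2 * X) ^ (p ^ k) := by
  obtain ⟨s, hsx, hsy, hsN⟩ := exists_sol N hN
  refine ⟨s.x, hsx, fun k => ?_⟩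
  obtain ⟨hax, hby, hbound⟩ := x_bound s hsx hsy (p ^ k)
  refine ⟨(s ^ (p ^ k)).x, (s ^ (p ^ k)).y, hax, ?_, (s ^ (p ^ k)).prop,
    dvd_pow_y s N p k p rfl hsN hpN, hbound⟩
  obtain ⟨m', hm'⟩ : ∃ m', p ^ k = m' + 1 := ⟨p ^ k - 1, by have := Nat.one_le_pow k p hp; omega⟩
  obtain ⟨c1, c2, -⟩ := x_bound s hsx hsy m'
  rw [hm', pow_succ, Pell.Solution₁.y_mul]
  positivity

theorem size_bound {a b r : ℤ} (ha : 0 < a) (hb : 0 < b) (h : a ^ 2 - 125 * b ^ 2 = 1)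
    (hr : r = 2 * b * (a + 11 * b)) : 3125 * r ^ 2 + 250 * r + 1 ≤ 2 ^ 22 * a ^ 4 := by
  have hrpos : 0 < r := by rw [hr]; positivity
  have hba : b ≤ a := by
    nlinarith [sq_nonneg (a - b), sq_nonneg b]
  have hra : r ≤ 24 * a ^ 2 := by
    rw [hr]; nlinarith
  have ha1 : 1 ≤ a ^ 2 := by nlinarith
  have h1 : r ^ 2 ≤ (24 * a ^ 2) ^ 2 := pow_le_pow_left₀ hrpos.le hra 2
  nlinarith

theorem log_bound {x a X : ℝ} {m : ℕ} (hm : 1 ≤ m) (hx : 0 < x) (ha : 0 ≤ a) (hX : 1 ≤ X)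
    (h1 : x ≤ 2 ^ 22 * a ^ 4) (h2 : a ≤ (2 * X) ^ m) :
    Real.log x ≤ (16 + 4 * Real.log (2 * X)) * m := by
  have hmr : (1 : ℝ) ≤ m := by exact_mod_cast hm
  have hxa' : x ≤ 2 ^ 22 * ((2 * X) ^ m) ^ 4 := by
    have h4 : a ^ 4 ≤ ((2 * X) ^ m) ^ 4 := pow_le_pow_left₀ ha h2 4
    linarith
  have h5 := Real.log_le_log hx hxa'
  rw [Real.log_mul (by positivity) (by positivity), Real.log_pow, Real.log_pow,
    Real.log_pow] at h5
  have h6 : Real.log 2 ≤ 0.6931471808 := Real.log_two_lt_d9.le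
  push_cast at h5
  nlinarith

/-- For every nonempty finite set `S` of primes there is `c > 0` such that infinitely many
`S`-primitive solutions satisfy `max (|x|^(1/2), |y|^(1/3)) ≥ c N_S |D| log |x|`. -/
theorem result (S : Finset ℕ) (hS : ∀ p ∈ S, Nat.Prime p) (hne : S.Nonempty) :
    ∃ c : ℝ, 0 < c ∧ ∀ B : ℝ, ∃ a D x y : ℤ, a ≠ 0 ∧ D ≠ 0 ∧
      (∀ p : ℕ, Nat.Prime p → (p : ℤ) ∣ a → p ∈ S) ∧
      (∀ p ∈ S, ¬ ((p : ℤ) ^ 6 ∣ x ^ 3 ∧ (p : ℤ) ^ 6 ∣ y ^ 2)) ∧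
      y ^ 2 = x ^ 3 + a * D ∧ B < |(x : ℝ)| ∧
      c * ((∏ p ∈ S, (p : ℝ)) * |(D : ℝ)|) * Real.log |(x : ℝ)| ≤
        max (|(x : ℝ)| ^ ((1 : ℝ) / 2)) (|(y : ℝ)| ^ ((1 : ℝ) / 3)) := by
  obtain ⟨p, hpS⟩ := hne
  have hp := hS p hpS
  obtain ⟨N, hNdef⟩ : ∃ N : ℤ, N = ∏ q ∈ S, (q : ℤ) := ⟨_, rfl⟩
  have hNpos : 0 < N := by
    rw [hNdef]; exact Finset.prod_pos fun q hq => by exact_mod_cast (hS q hq).pos
  have hpN : ∀ q ∈ S, (q : ℤ) ∣ N := fun q hq => by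
    rw [hNdef]; exact Finset.dvd_prod_of_mem (fun q : ℕ => (q : ℤ)) hq
  have hNr : (∏ q ∈ S, (q : ℝ)) = (N : ℝ) := by rw [hNdef]; push_cast; rfl
  have hNr0 : (0 : ℝ) < N := by exact_mod_cast hNpos
  obtain ⟨X, hX, hsol⟩ := exists_pow N hNpos p hp.pos (hpN p hpS)
  have hX1 : (1 : ℝ) ≤ X := by exact_mod_cast hX
  obtain ⟨K, hK⟩ : ∃ K : ℝ, K = 16 + 4 * Real.log (2 * X) := ⟨_, rfl⟩
  have hK0 : 0 < K := by
    have : 0 < Real.log (2 * (X : ℝ)) := Real.log_pos (by linarith)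
    rw [hK]; positivity
  refine ⟨55 / (1728 * N * K), by positivity, fun B => ?_⟩
  obtain ⟨k, hkB⟩ := pow_unbounded_of_one_lt B (show (1 : ℝ) < p by exact_mod_cast hp.one_lt)
  obtain ⟨a, b, hapos, hbpos, hpell, hdvd, hbound⟩ := hsol k
  have hm1 : 1 ≤ p ^ k := Nat.one_le_pow _ _ hp.pos
  obtain ⟨r, hr⟩ : ∃ r : ℤ, r = 2 * b * (a + 11 * b) := ⟨_, rfl⟩
  obtain ⟨w, hw⟩ : ∃ w : ℤ, w = 22 * a * b + a ^ 2 + 125 * b ^ 2 := ⟨_, rfl⟩
  have hrpos : 0 < r := by rw [hr]; positivity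
  have hid := main_identity (w_sq hpell hr hw)
  have hsize := size_bound hapos hbpos hpell hr
  have hbr : b ∣ r := ⟨2 * (a + 11 * b), by rw [hr]; ring⟩
  obtain ⟨r', hr'⟩ : (p : ℤ) ^ k ∣ r := ((dvd_mul_right _ N).trans hdvd).trans hbr
  have hNr' : N ∣ r := ((dvd_mul_left N _).trans hdvd).trans hbr
  have hpk : (0 : ℤ) < (p : ℤ) ^ k := by have := hp.pos; positivity
  have hr'pos : 0 < r' := by
    by_contra hcon
    push Not at hcon
    have : (p : ℤ) ^ k * r' ≤ 0 := mul_nonpos_of_nonneg_of_nonpos hpk.le hcon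
    omega
  have hpr : (p : ℤ) ^ k ≤ r := Int.le_of_dvd hrpos ⟨r', hr'⟩
  obtain ⟨x, hx⟩ : ∃ x : ℤ, x = 3125 * r ^ 2 + 250 * r + 1 := ⟨_, rfl⟩
  rw [← hx] at hid hsize
  have hxpos : 0 < x := by rw [hx]; positivity
  have hxr : (0 : ℝ) < x := by exact_mod_cast hxpos
  refine ⟨(p : ℤ) ^ k, -(1728 * r'), x, (15625 * r ^ 2 + 500 * r - 1) * w, hpk.ne', by omega,
    ?_, ?_, ?_, ?_, ?_⟩
  · intro q hq hqd
    have h1 : q ∣ p ^ k := by exact_mod_cast hqd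
    have h2 := (Nat.prime_dvd_prime_iff_eq hq hp).1 (hq.dvd_of_dvd_pow h1)
    rw [h2]; exact hpS
  · rintro q hqS ⟨h1, -⟩
    have hq := hS q hqS
    have hqr : (q : ℤ) ∣ r := (hpN q hqS).trans hNr'
    have hqx3 : (q : ℤ) ∣ x ^ 3 := (dvd_pow_self _ (by norm_num)).trans h1
    have hqx : (q : ℤ) ∣ x := (Nat.prime_iff_prime_int.1 hq).dvd_of_dvd_pow hqx3
    have hq1 : (q : ℤ) ∣ 1 := by
      have h3 : (q : ℤ) ∣ x - r * (3125 * r + 250) := dvd_sub hqx (hqr.mul_right _)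
      have h4 : x - r * (3125 * r + 250) = 1 := by rw [hx]; ring
      rwa [h4] at h3
    have h5 : q ∣ 1 := by exact_mod_cast hq1
    exact hq.one_lt.ne' (Nat.dvd_one.1 h5)
  · rw [hid, hr']; ring
  · rw [abs_of_pos hxr]
    have h1 : (p : ℤ) ^ k ≤ x := by rw [hx]; nlinarith
    have h3 : ((p : ℝ)) ^ k ≤ x := by exact_mod_cast h1
    linarith
  · refine le_trans ?_ (le_max_left _ _)
    have hr'r : (0 : ℝ) < r' := by exact_mod_cast hr'pos
    have hrr : (0 : ℝ) < r := by exact_mod_cast hrpos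
    have hDabs : |((-(1728 * r') : ℤ) : ℝ)| = 1728 * r' := by
      push_cast
      rw [abs_neg, abs_of_pos (by positivity)]
    rw [abs_of_pos hxr, hNr, ← Real.sqrt_eq_rpow, hDabs]
    have hroot : 55 * (r : ℝ) ≤ √(x : ℝ) := by
      apply Real.le_sqrt_of_sq_le
      rw [hx]; push_cast
      nlinarith
    have hlog : Real.log x ≤ K * ((p ^ k : ℕ) : ℝ) := by
      rw [hK]
      refine log_bound hm1 hxr (a := (a : ℝ)) (by exact_mod_cast hapos.le) hX1 ?_ ?_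
      · exact_mod_cast hsize
      · exact_mod_cast hbound
    have hmp : ((p ^ k : ℕ) : ℝ) * r' = r := by
      have : ((p : ℤ) ^ k * r' : ℤ) = r := hr'.symm
      push_cast
      exact_mod_cast this
    calc 55 / (1728 * N * K) * (N * (1728 * r')) * Real.log x
        = (55 * r' / K) * Real.log x := by field_simp
      _ ≤ (55 * r' / K) * (K * ((p ^ k : ℕ) : ℝ)) :=
        mul_le_mul_of_nonneg_left hlog (by positivity)
      _ = 55 * (((p ^ k : ℕ) : ℝ) * r') := by field_simp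
      _ = 55 * r := by rw [hmp]
      _ ≤ √(x : ℝ) := hroot

end Pool.Agent.Results.MP_2155e3_nt.LogGrowth
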