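import Mathlib
import Pool.Agent.Lib.MP_2155e3_nt.FixedS

/-!
# MP_2155e3_nt : for a fixed set `S` of `s ≥ 2` primes a factor `(log |x|) ^ (s - 1)` is lost
-/

set_option autoImplicit false

namespace Pool.Agent.Results.MP_2155e3_nt.LogPowerGrowth

open Real

/-- For every finite set `S` of at least two primes there are solutions of `y² = x³ + a D`, with an
`S`-unit integer `a`, with arbitrarily large `|x|`, with `p⁶ ∣ x³`, `p⁶ ∣ y²` for no prime `p` and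
with `max (|x|^(1/2), |y|^(1/3)) ≥ c N_S |D| (log |x|) ^ (|S| - 1)`, where
`1 / c = 108 N_S ² (3 + 2 log N_S) ^ (|S| - 1)`. -/
theorem result (S : Finset ℕ) (hS : ∀ p ∈ S, Nat.Prime p) (hcard : 2 ≤ S.card) (B : ℝ) :
    ∃ a D x y : ℤ, a ≠ 0 ∧ D ≠ 0 ∧
      (∀ p : ℕ, Nat.Prime p → (p : ℤ) ∣ a → p ∈ S) ∧
      (∀ p : ℕ, Nat.Prime p → ¬ ((p : ℤ) ^ 6 ∣ x ^ 3 ∧ (p : ℤ) ^ 6 ∣ y ^ 2)) ∧
      y ^ 2 = x ^ 3 + a * D ∧ B < |(x : ℝ)| ∧
      ((∏ p ∈ S, (p : ℝ)) * |(D : ℝ)|) * (Real.log |(x : ℝ)|) ^ (S.card - 1) ≤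
        108 * (∏ p ∈ S, (p : ℝ)) ^ 2 *
            (3 + 2 * Real.log (∏ p ∈ S, (p : ℝ))) ^ (S.card - 1) *
          max (|(x : ℝ)| ^ ((1 : ℝ) / 2)) (|(y : ℝ)| ^ ((1 : ℝ) / 3)) := by
  obtain ⟨q, hqS, hq2⟩ : ∃ q ∈ S, 2 ∉ S.erase q := by
    by_cases h : 2 ∈ S
    · exact ⟨2, h, Finset.notMem_erase 2 S⟩
    · obtain ⟨q, hq⟩ := Finset.card_pos.1 (show 0 < S.card by omega)
      exact ⟨q, hq, fun h1 => h (Finset.mem_of_mem_erase h1)⟩
  have hq := hS q hqS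
  set T : Finset ℕ := S.erase q with hT
  have hTp : ∀ p ∈ T, p.Prime := fun p hp => hS p (Finset.mem_of_mem_erase hp)
  have hqT : q ∉ T := Finset.notMem_erase q S
  have hST : insert q T = S := Finset.insert_erase hqS
  obtain ⟨n, hn⟩ : ∃ n : ℕ, S.card - 1 = n := ⟨_, rfl⟩
  have hTc : T.card = n := by rw [hT, Finset.card_erase_of_mem hqS, hn]
  have hn1 : 1 ≤ n := by omega
  rw [hn]
  -- the parameters
  obtain ⟨E, hE⟩ := exists_nat_gt ((q : ℝ) * (|B| + 1))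
  have hqR : (2 : ℝ) ≤ q := by exact_mod_cast hq.two_le
  have hB := abs_nonneg B
  have hE2R : (2 : ℝ) ≤ E := by nlinarith
  have hE2 : 2 ≤ E := by exact_mod_cast hE2R
  have hN : 2 ≤ E ^ n := by
    calc 2 ≤ E := hE2
      _ = E ^ 1 := (pow_one _).symm
      _ ≤ E ^ n := Nat.pow_le_pow_right (by omega) hn1
  obtain ⟨m, hm1, hm2⟩ : ∃ m : ℕ, q ^ m < E ^ n ∧ E ^ n ≤ q ^ (m + 1) := by
    refine ⟨Nat.log q (E ^ n - 1), ?_, ?_⟩
    · have := Nat.pow_log_le_self q (show E ^ n - 1 ≠ 0 by omega)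
      omega
    · have := Nat.lt_pow_succ_log_self hq.one_lt (E ^ n - 1)
      rw [Nat.succ_eq_add_one] at this
      omega
  obtain ⟨c, k, a, x, y, hk, hkc, hc, ha, haS, hprim, heq, hx1, hx2⟩ :=
    Pool.Agent.Lib.MP_2155e3_nt.FixedS.solution T hTp hq2 q hq hqT E m (by rw [hTc]; exact hm1)
  rw [hST] at haS
  have hkZ : (0 : ℤ) < k := by exact_mod_cast hk
  refine ⟨a, 108 * (k : ℤ), x, y, ha, by positivity, haS, hprim, heq, ?_⟩
  -- the product of the primes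
  set R : ℝ := ∏ p ∈ S, (p : ℝ) with hR
  set P : ℝ := ∏ p ∈ T, (p : ℝ) with hP
  have hRP : R = q * P := by
    rw [hR, hP, ← hST, Finset.prod_insert hqT]
  have hP1 : 1 ≤ P := by
    have h1 : 1 ≤ ∏ p ∈ T, p := Nat.succ_le_of_lt (Finset.prod_pos fun p hp => (hTp p hp).pos)
    have h2 : ((1 : ℕ) : ℝ) ≤ ((∏ p ∈ T, p : ℕ) : ℝ) := Nat.cast_le.2 h1
    rw [Nat.cast_prod, Nat.cast_one] at h2
    exact h2
  have hPR : P ≤ R := by rw [hRP]; nlinarith
  have hqR' : (q : ℝ) ≤ R := by rw [hRP]; nlinarith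
  have hR1 : 1 ≤ R := hP1.trans hPR
  -- the sizes
  have hqm : 0 < q ^ m := pow_pos hq.pos m
  have hc0 : 0 < c := lt_of_lt_of_le (Nat.mul_pos hqm hk) hkc
  have hcR : (1 : ℝ) ≤ c := by exact_mod_cast hc0
  have hkcR : (q : ℝ) ^ m * k ≤ c := by exact_mod_cast hkc
  have hkR : (1 : ℝ) ≤ k := by exact_mod_cast hk
  have hcP : (c : ℝ) ≤ P ^ E := by
    have h1 : ((c : ℕ) : ℝ) ≤ (((∏ p ∈ T, p) ^ E : ℕ) : ℝ) := Nat.cast_le.2 hc
    rw [Nat.cast_pow, Nat.cast_prod] at h1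
    exact h1
  have hx1R : (c : ℝ) ^ 2 ≤ x := by exact_mod_cast hx1
  have hx2R : (x : ℝ) ≤ 16 * (c : ℝ) ^ 2 := by exact_mod_cast hx2
  have hc2 : (1 : ℝ) ≤ (c : ℝ) ^ 2 := by nlinarith
  have hxpos : (0 : ℝ) < x := by linarith
  have hxabs : |(x : ℝ)| = x := abs_of_pos hxpos
  rw [hxabs]
  have hEq : (E : ℝ) ^ n ≤ q * (q : ℝ) ^ m := by
    have h1 : ((E ^ n : ℕ) : ℝ) ≤ ((q ^ (m + 1) : ℕ) : ℝ) := Nat.cast_le.2 hm2
    rw [pow_succ] at h1
    push_cast at h1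
    linarith
  refine ⟨?_, ?_⟩
  · -- `|x|` is large
    have h1 : (E : ℝ) ≤ (E : ℝ) ^ n := le_self_pow₀ (by linarith) (by omega)
    have h2 : (q : ℝ) * (|B| + 1) < q * (q : ℝ) ^ m := lt_of_lt_of_le hE (h1.trans hEq)
    have h3 : |B| + 1 < (q : ℝ) ^ m := lt_of_mul_lt_mul_left h2 (by linarith)
    have h4 : (q : ℝ) ^ m ≤ (q : ℝ) ^ m * k := le_mul_of_one_le_right (by positivity) hkR
    have h5 : (c : ℝ) ≤ (c : ℝ) ^ 2 := by nlinarith
    have h6 := le_abs_self B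
    linarith
  · -- the inequality
    have hDabs : |((108 * (k : ℤ) : ℤ) : ℝ)| = 108 * k := by
      push_cast
      exact abs_of_pos (by linarith)
    rw [hDabs]
    have hlog0 : 0 ≤ log (x : ℝ) := Real.log_nonneg (by linarith)
    have hlogR : 0 ≤ log R := Real.log_nonneg hR1
    have hlog16 : log (16 : ℝ) ≤ 3 := by
      have h1 := Real.log_two_lt_d9
      rw [show (16 : ℝ) = 2 ^ 4 by norm_num, Real.log_pow]
      push_cast
      linarith
    have hlog : log (x : ℝ) ≤ E * (3 + 2 * log R) := by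
      have h1 : log (x : ℝ) ≤ log (16 * (c : ℝ) ^ 2) := Real.log_le_log hxpos hx2R
      rw [Real.log_mul (by norm_num) (by positivity), Real.log_pow] at h1
      have h2 : log (c : ℝ) ≤ log (P ^ E) := Real.log_le_log (by linarith) hcP
      rw [Real.log_pow] at h2
      have h3 : log P ≤ log R := Real.log_le_log (by linarith) hPR
      push_cast at h1
      have h4 : (E : ℝ) * log P ≤ E * log R := mul_le_mul_of_nonneg_left h3 (by linarith)
      nlinarith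
    have hpow : log (x : ℝ) ^ n ≤ (q * (q : ℝ) ^ m) * (3 + 2 * log R) ^ n := by
      calc log (x : ℝ) ^ n ≤ (E * (3 + 2 * log R)) ^ n := pow_le_pow_left₀ hlog0 hlog n
        _ = (E : ℝ) ^ n * (3 + 2 * log R) ^ n := mul_pow _ _ _
        _ ≤ (q * (q : ℝ) ^ m) * (3 + 2 * log R) ^ n :=
            mul_le_mul_of_nonneg_right hEq (by positivity)
    have hcmax : (c : ℝ) ≤ max ((x : ℝ) ^ ((1 : ℝ) / 2)) (|(y : ℝ)| ^ ((1 : ℝ) / 3)) := by
      refine le_trans ?_ (le_max_left _ _)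
      have h3 := Real.rpow_le_rpow (by positivity) hx1R (show (0 : ℝ) ≤ 1 / 2 by norm_num)
      refine le_trans (le_of_eq ?_) h3
      rw [← Real.rpow_natCast, ← Real.rpow_mul (by linarith)]
      norm_num
    have hW : 0 ≤ (3 + 2 * log R) ^ n := by positivity
    calc R * (108 * k) * log (x : ℝ) ^ n
        ≤ R * (108 * k) * ((q * (q : ℝ) ^ m) * (3 + 2 * log R) ^ n) :=
          mul_le_mul_of_nonneg_left hpow (by positivity)
      _ = 108 * (R * q) * (3 + 2 * log R) ^ n * ((q : ℝ) ^ m * k) := by ring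
      _ ≤ 108 * R ^ 2 * (3 + 2 * log R) ^ n * c := by
          refine mul_le_mul ?_ hkcR (by positivity) (by positivity)
          refine mul_le_mul_of_nonneg_right ?_ hW
          nlinarith
      _ ≤ _ := mul_le_mul_of_nonneg_left hcmax (by positivity)

end Pool.Agent.Results.MP_2155e3_nt.LogPowerGrowth
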